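import Mathlib
import Pool.Agent.Y640.FM.Hard
import Pool.Agent.Y640.FM.Upper

set_option autoImplicit false

namespace Pool.Agent.Results.MP_f91556_lc.ExactOperationCount

open Pool.Agent.H683R2.FS Pool.Agent.Y640.FM

/-- The number of arithmetic operations needed for the product of an `m × m` submatrix of the
`d × d` Fourier matrix and a vector is exactly `2 * m ^ 2 - m` in the worst case, for every
`d ≥ 2 ^ (40 * m ^ 6)`; if `d` is prime then this holds for all pairs of sets with few exceptions,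
and for almost all vectors. Smaller `d` are treated with square blocks of size `k ≤ m`. -/
theorem result :
    (∀ k m d : ℕ, k ≤ m → m ≤ d → 2 ^ (40 * k ^ 6) ≤ d → ∃ R C : Fin m → Fin d,
      StrictMono R ∧ StrictMono C ∧ Needs (2 * k ^ 2 - k) R C) ∧
    (∀ s k m d : ℕ, 1 ≤ k → k ≤ m → m ≤ d → (2 * k) ^ ((8 * s + 5) * k ^ 2) ≤ d →
      ∃ R C : Fin m → Fin d, StrictMono R ∧ StrictMono C ∧
        Needs (s * k ^ 2 / (s + 1) - k) R C) ∧
    (∀ k m d : ℕ, k ≤ m → d.Prime →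
      (easyPairs (2 * k ^ 2 - k) m d).ncard ≤ 2 ^ (40 * k ^ 6) * d ^ (2 * m - 1)) ∧
    (∀ s k m d : ℕ, 1 ≤ k → k ≤ m → d.Prime →
      (easyPairs (s * k ^ 2 / (s + 1) - k) m d).ncard ≤
        (2 * k) ^ ((8 * s + 5) * k ^ 2) * d ^ (2 * m - 1)) ∧
    (∀ A : Alg, A.Correct → ∀ m d : ℕ, 2 ^ (40 * m ^ 6) ≤ d → ∃ R C : Fin m → Fin d,
      StrictMono R ∧ StrictMono C ∧ ∃ v : Fin m → ℂ, 2 * m ^ 2 - m ≤ (A m d R C).ops v) ∧
    (∃ A : Alg, A.Correct ∧ ∀ (m d : ℕ) (R C : Fin m → Fin d) (v : Fin m → ℂ),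
      (A m d R C).ops v ≤ 2 * m ^ 2 - m) ∧
    (¬ ∃ (A : Alg) (T : ℕ → ℕ), A.Correct ∧
      (∀ (m d : ℕ) (R C : Fin m → Fin d), StrictMono R → StrictMono C →
        ∀ v : Fin m → ℂ, (A m d R C).ops v ≤ T m) ∧
      (fun m => (T m : ℝ)) =o[Filter.atTop] (fun m => (m : ℝ) ^ 2)) := by
  have hlow : ∀ A : Alg, A.Correct → ∀ m d : ℕ, 2 ^ (40 * m ^ 6) ≤ d → ∃ R C : Fin m → Fin d,
      StrictMono R ∧ StrictMono C ∧ ∃ v : Fin m → ℂ, 2 * m ^ 2 - m ≤ (A m d R C).ops v := by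
    intro A hA m d hd
    have hmd : m ≤ d := by
      rcases Nat.eq_zero_or_pos m with rfl | hm
      · exact Nat.zero_le _
      · refine le_trans ?_ hd
        have h1 : m ≤ m ^ 6 := Nat.le_self_pow (by norm_num) m
        have h2 : 40 * m ^ 6 < 2 ^ (40 * m ^ 6) := Nat.lt_two_pow_self
        omega
    obtain ⟨R, C, hR, hC, hN⟩ := exists_A le_rfl hmd hd
    obtain ⟨v, hv⟩ := (hN (A m d R C)).exists
    exact ⟨R, C, hR, hC, v, hv (hA m d R C hR hC v)⟩
  refine ⟨fun k m d h1 h2 h3 => exists_A h1 h2 h3, fun s k m d h1 h2 h3 h4 => exists_B h1 h2 h3 h4,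
    fun k m d h1 h2 => card_A h1 h2, fun s k m d h1 h2 h3 => card_B h1 h2 h3, hlow,
    ⟨direct, fun m d R C _ _ v => (direct_spec R C v).1, fun m d R C v => ?_⟩, ?_⟩
  · have := (direct_spec R C v).2
    omega
  · rintro ⟨A, T, hA, hT, ho⟩
    rw [Asymptotics.isLittleO_iff] at ho
    have h1 := ho (c := 1 / 2) (by norm_num)
    obtain ⟨m, hm, h2⟩ := (h1.and (Filter.eventually_ge_atTop 1)).exists
    obtain ⟨R, C, hR, hC, v, hv⟩ := hlow A hA m (2 ^ (40 * m ^ 6)) le_rfl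
    have h3 := hT m _ R C hR hC v
    have h4 : m ^ 2 ≤ T m := by
      have h5 : m ≤ m ^ 2 := Nat.le_self_pow (by norm_num) m
      omega
    have h6 : ((m : ℝ)) ^ 2 ≤ (T m : ℝ) := by exact_mod_cast h4
    rw [Real.norm_of_nonneg (Nat.cast_nonneg _), Real.norm_of_nonneg (by positivity)] at hm
    have h7 : (1 : ℝ) ≤ m := by exact_mod_cast h2
    nlinarith

end Pool.Agent.Results.MP_f91556_lc.ExactOperationCount
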